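import Mathlib

set_option autoImplicit false

open Set Filter Topology Metric MeasureTheory

namespace Pool.Agent.Q73.UT

variable {E : Type*} [NormedAddCommGroup E] [InnerProductSpace ℝ E] [FiniteDimensional ℝ E]
  [MeasurableSpace E] [BorelSpace E]

/-- The paraboloid with vertex y and opening M touches g from above at x, relative to the ball. -/
def Ct (g : E → ℝ) (z₀ : E) (R M : ℝ) (y x : E) : Prop :=
  x ∈ closedBall z₀ R ∧
    ∀ x' ∈ closedBall z₀ R, g x' - M / 2 * ‖x' - y‖ ^ 2 ≤ g x - M / 2 * ‖x - y‖ ^ 2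

/-- Bounded measurable function with the sub-mean value property on balls. -/
structure Sub (μ : Measure E) (g : E → ℝ) (z₀ : E) (R K : ℝ) : Prop where
  meas : Measurable g
  bdd : ∀ x, |g x| ≤ K
  sub : ∀ x s, 0 < s → closedBall x s ⊆ closedBall z₀ R →
    g x * μ.real (ball x s) ≤ ∫ y in ball x s, g y ∂μ

variable (μ : Measure E) [μ.IsAddHaarMeasure]

theorem odd_int (s : ℝ) (v : E) : ∫ h in ball (0 : E) s, inner ℝ h v ∂μ = 0 := by
  rw [← integral_indicator measurableSet_ball]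
  set f : E → ℝ := (ball (0 : E) s).indicator (fun h => inner ℝ h v) with hf
  have h1 : ∫ x, f (-x) ∂μ = ∫ x, f x ∂μ := integral_neg_eq_self f μ
  have h2 : ∀ x, f (-x) = - f x := by
    intro x
    simp only [hf, indicator]
    by_cases hx : x ∈ ball (0 : E) s
    · have hx' : -x ∈ ball (0 : E) s := by simpa using hx
      rw [if_pos hx, if_pos hx', inner_neg_left]
    · have hx' : -x ∉ ball (0 : E) s := by simpa using hx
      rw [if_neg hx, if_neg hx', neg_zero]
  simp_rw [h2] at h1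
  rw [integral_neg] at h1
  linarith

theorem real_ball_scale [Nontrivial E] (x x' : E) {s : ℝ} (hs : 0 ≤ s) (t : ℝ) (ht : 0 ≤ t) :
    μ.real (ball x (t * s)) = t ^ Module.finrank ℝ E * μ.real (ball x' s) := by
  unfold Measure.real
  rw [Measure.addHaar_ball_mul μ x ht s, Measure.addHaar_ball μ x' hs,
    Measure.addHaar_ball μ 0 hs, ENNReal.toReal_mul, ENNReal.toReal_ofReal (by positivity)]

omit [FiniteDimensional ℝ E] [MeasurableSpace E] [BorelSpace E] in
theorem par_expand (x h y : E) :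
    ‖x + h - y‖ ^ 2 - ‖x - y‖ ^ 2 = ‖h‖ ^ 2 + 2 * inner ℝ h (x - y) := by
  have : x + h - y = (x - y) + h := by abel
  rw [this, norm_add_sq_real, real_inner_comm]
  ring

theorem int_par (x y : E) {s : ℝ} (hs : 0 < s) {M : ℝ} (hM : 0 ≤ M) :
    ∫ x' in ball x s, M / 2 * (‖x' - y‖ ^ 2 - ‖x - y‖ ^ 2) ∂μ ≤
      M / 2 * s ^ 2 * μ.real (ball x s) := by
  have htr : ∫ x' in ball x s, M / 2 * (‖x' - y‖ ^ 2 - ‖x - y‖ ^ 2) ∂μ =
      ∫ h in ball (0 : E) s, M / 2 * (‖x + h - y‖ ^ 2 - ‖x - y‖ ^ 2) ∂μ := by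
    rw [← integral_indicator measurableSet_ball, ← integral_indicator measurableSet_ball,
      ← integral_add_left_eq_self _ x]
    congr 1
    ext h
    simp only [indicator]
    have : x + h ∈ ball x s ↔ h ∈ ball (0 : E) s := by simp [mem_ball, dist_eq_norm]
    by_cases hh : h ∈ ball (0 : E) s
    · rw [if_pos hh, if_pos (this.2 hh)]
    · rw [if_neg hh, if_neg (fun h' => hh (this.1 h'))]
  rw [htr]
  have hcont1 : Continuous (fun h : E => ‖h‖ ^ 2) := by fun_prop
  have hcont2 : Continuous (fun h : E => 2 * inner ℝ h (x - y)) := by fun_prop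
  have hi : ∀ f : E → ℝ, Continuous f → IntegrableOn f (ball (0 : E) s) μ := by
    intro f hf
    exact (hf.continuousOn.integrableOn_compact (isCompact_closedBall (0 : E) s)).mono_set
      ball_subset_closedBall
  have h1 : ∫ h in ball (0 : E) s, M / 2 * (‖x + h - y‖ ^ 2 - ‖x - y‖ ^ 2) ∂μ =
      M / 2 * ∫ h in ball (0 : E) s, ‖h‖ ^ 2 ∂μ := by
    simp_rw [par_expand]
    rw [integral_const_mul, integral_add (hi _ hcont1) (hi _ hcont2), integral_const_mul,
      odd_int μ s (x - y)]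
    ring
  rw [h1]
  have h2 : ∫ h in ball (0 : E) s, ‖h‖ ^ 2 ∂μ ≤ ∫ h in ball (0 : E) s, s ^ 2 ∂μ := by
    apply setIntegral_mono_on (hi _ hcont1) (hi _ continuous_const) measurableSet_ball
    intro h hh
    have : ‖h‖ < s := by simpa using hh
    gcongr
  rw [setIntegral_const, smul_eq_mul] at h2
  have h3 : μ.real (ball (0 : E) s) = μ.real (ball x s) := by
    unfold Measure.real
    rw [Measure.addHaar_ball_center μ x s]
  rw [h3] at h2
  calc M / 2 * ∫ h in ball (0 : E) s, ‖h‖ ^ 2 ∂μ ≤ M / 2 * (μ.real (ball x s) * s ^ 2) := by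
        gcongr
    _ = _ := by ring

variable {μ}

/-- The gap function between the touching paraboloid and g. -/
noncomputable def gap (g : E → ℝ) (M : ℝ) (y x x' : E) : ℝ :=
  g x + M / 2 * (‖x' - y‖ ^ 2 - ‖x - y‖ ^ 2) - g x'

omit [FiniteDimensional ℝ E] [MeasurableSpace E] [BorelSpace E] in
theorem gap_nonneg {g : E → ℝ} {z₀ : E} {R M : ℝ} {y x : E} (h : Ct g z₀ R M y x) {x' : E}
    (hx' : x' ∈ closedBall z₀ R) : 0 ≤ gap g M y x x' := by
  have := h.2 x' hx'
  unfold gap
  linarith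

theorem Sub.integrableOn {g : E → ℝ} {z₀ : E} {R K : ℝ} (hg : Sub μ g z₀ R K) (c : E) (s : ℝ) :
    IntegrableOn g (ball c s) μ := by
  apply Measure.integrableOn_of_bounded (M := K)
  · exact (measure_ball_lt_top).ne
  · exact hg.meas.aestronglyMeasurable
  · exact Eventually.of_forall (fun x => by rw [Real.norm_eq_abs]; exact hg.bdd x)

theorem gap_integrableOn {g : E → ℝ} {z₀ : E} {R K : ℝ} (hg : Sub μ g z₀ R K) (M : ℝ) (y x c : E)
    (s : ℝ) : IntegrableOn (gap g M y x) (ball c s) μ := by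
  unfold gap
  apply Integrable.sub _ (hg.integrableOn c s)
  have hcont : Continuous (fun x' : E => g x + M / 2 * (‖x' - y‖ ^ 2 - ‖x - y‖ ^ 2)) := by fun_prop
  exact (hcont.continuousOn.integrableOn_compact (isCompact_closedBall c s)).mono_set
      ball_subset_closedBall

theorem gap_int_le {g : E → ℝ} {z₀ : E} {R K : ℝ} (hg : Sub μ g z₀ R K) {M : ℝ} (hM : 0 ≤ M)
    (y x : E) {s : ℝ} (hs : 0 < s) (hsub : closedBall x s ⊆ closedBall z₀ R) :
    ∫ x' in ball x s, gap g M y x x' ∂μ ≤ M / 2 * s ^ 2 * μ.real (ball x s) := by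
  have hcont : Continuous (fun x' : E => M / 2 * (‖x' - y‖ ^ 2 - ‖x - y‖ ^ 2)) := by fun_prop
  have hi1 : IntegrableOn (fun x' : E => M / 2 * (‖x' - y‖ ^ 2 - ‖x - y‖ ^ 2)) (ball x s) μ :=
    (hcont.continuousOn.integrableOn_compact (isCompact_closedBall x s)).mono_set
      ball_subset_closedBall
  have hi0 : IntegrableOn (fun _ : E => g x) (ball x s) μ :=
    integrableOn_const (measure_ball_lt_top).ne
  have h1 : ∫ x' in ball x s, gap g M y x x' ∂μ =
      g x * μ.real (ball x s) + ∫ x' in ball x s, M / 2 * (‖x' - y‖ ^ 2 - ‖x - y‖ ^ 2) ∂μ -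
        ∫ x' in ball x s, g x' ∂μ := by
    have e1 : ∫ x' in ball x s, (g x + M / 2 * (‖x' - y‖ ^ 2 - ‖x - y‖ ^ 2)) ∂μ =
        g x * μ.real (ball x s) + ∫ x' in ball x s, M / 2 * (‖x' - y‖ ^ 2 - ‖x - y‖ ^ 2) ∂μ := by
      rw [integral_add hi0 hi1, setIntegral_const, smul_eq_mul, mul_comm]
    have e2 : ∫ x' in ball x s, gap g M y x x' ∂μ =
        ∫ x' in ball x s, (g x + M / 2 * (‖x' - y‖ ^ 2 - ‖x - y‖ ^ 2)) ∂μ -
          ∫ x' in ball x s, g x' ∂μ :=
      integral_sub (hi0.add hi1) (hg.integrableOn x s)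
    rw [e2, e1]
  rw [h1]
  have h2 := int_par μ x y hs hM
  have h3 := hg.sub x s hs hsub
  linarith

omit [FiniteDimensional ℝ E] [MeasurableSpace E] [BorelSpace E] in
theorem gap_sub (g : E → ℝ) (M : ℝ) (y₁ x₁ y₂ x₂ x v : E) :
    (gap g M y₁ x₁ (x + v) - gap g M y₂ x₂ (x + v)) - (gap g M y₁ x₁ x - gap g M y₂ x₂ x) =
      M * inner ℝ v (y₂ - y₁) := by
  have h : ∀ y : E, ‖x + v - y‖ ^ 2 = ‖x - y‖ ^ 2 + (‖v‖ ^ 2 + 2 * inner ℝ v (x - y)) := by
    intro y
    have := par_expand x v y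
    linarith
  unfold gap
  rw [h y₁, h y₂, inner_sub_right v x y₁, inner_sub_right v x y₂, inner_sub_right v y₂ y₁]
  ring

/-- Key estimate: two contact points at distance at most r have vertices at distance at most
L r, where L depends only on the dimension. -/
theorem vertex_dist [Nontrivial E] {g : E → ℝ} {z₀ : E} {R K : ℝ} (hg : Sub μ g z₀ R K) {M : ℝ}
    (hM : 0 < M) {y₁ x₁ y₂ x₂ : E} (h₁ : Ct g z₀ R M y₁ x₁) (h₂ : Ct g z₀ R M y₂ x₂) {r : ℝ}
    (hr : 0 < r) (hd : dist x₁ x₂ ≤ r) (hb₁ : closedBall x₁ r ⊆ closedBall z₀ R)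
    (hb₂ : closedBall x₂ (2 * r) ⊆ closedBall z₀ R) :
    ‖y₂ - y₁‖ ≤ 2 * 2 ^ Module.finrank ℝ E * (1 + 4 * 2 ^ Module.finrank ℝ E) * r := by
  set m := Module.finrank ℝ E with hm
  set V := μ.real (ball x₁ r) with hV
  have hVpos : 0 < V := by
    rw [hV]
    exact ENNReal.toReal_pos (measure_ball_pos μ x₁ hr).ne' (measure_ball_lt_top).ne
  rcases eq_or_ne y₁ y₂ with heq | hne
  · rw [heq, sub_self, norm_zero]; positivity
  set a := y₂ - y₁ with ha
  have hapos : 0 < ‖a‖ := norm_pos_iff.2 (sub_ne_zero.2 hne.symm)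
  set D : E → ℝ := fun x => gap g M y₁ x₁ x - gap g M y₂ x₂ x with hD
  have hDi : ∀ c s, IntegrableOn D (ball c s) μ := fun c s =>
    (gap_integrableOn hg M y₁ x₁ c s).sub (gap_integrableOn hg M y₂ x₂ c s)
  have hball12 : ball x₁ r ⊆ ball x₂ (2 * r) := by
    apply ball_subset_ball'
    linarith
  -- upper bound
  have hup : ∫ x in ball x₁ r, |D x| ∂μ ≤ M / 2 * r ^ 2 * V * (1 + 4 * 2 ^ m) := by
    have h1 : ∫ x in ball x₁ r, |D x| ∂μ ≤
        ∫ x in ball x₁ r, (gap g M y₁ x₁ x + gap g M y₂ x₂ x) ∂μ := by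
      apply setIntegral_mono_on (hDi _ _).abs
        ((gap_integrableOn hg M y₁ x₁ _ _).add (gap_integrableOn hg M y₂ x₂ _ _)) measurableSet_ball
      intro x hx
      have hxR : x ∈ closedBall z₀ R := hb₁ (ball_subset_closedBall hx)
      have p1 := gap_nonneg h₁ hxR
      have p2 := gap_nonneg h₂ hxR
      show |gap g M y₁ x₁ x - gap g M y₂ x₂ x| ≤ gap g M y₁ x₁ x + gap g M y₂ x₂ x
      rw [abs_le]
      constructor <;> linarith
    rw [integral_add (gap_integrableOn hg M y₁ x₁ _ _) (gap_integrableOn hg M y₂ x₂ _ _)] at h1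
    have h2 := gap_int_le hg hM.le y₁ x₁ hr hb₁
    have h3 : ∫ x in ball x₁ r, gap g M y₂ x₂ x ∂μ ≤ ∫ x in ball x₂ (2 * r), gap g M y₂ x₂ x ∂μ := by
      apply setIntegral_mono_set (gap_integrableOn hg M y₂ x₂ _ _)
      · filter_upwards [ae_restrict_mem measurableSet_ball] with x hx
        exact gap_nonneg h₂ (hb₂ (ball_subset_closedBall hx))
      · exact hball12.eventuallyLE
    have h4 := gap_int_le hg hM.le y₂ x₂ (by positivity : 0 < 2 * r) hb₂
    have h5 : μ.real (ball x₂ (2 * r)) = 2 ^ m * V :=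
      real_ball_scale μ x₂ x₁ hr.le 2 (by norm_num)
    rw [h5] at h4
    calc ∫ x in ball x₁ r, |D x| ∂μ ≤ M / 2 * r ^ 2 * V + M / 2 * (2 * r) ^ 2 * (2 ^ m * V) := by
          linarith
      _ = _ := by ring
  -- lower bound
  set v : E := (r / 2 / ‖a‖) • a with hv
  have hvn : ‖v‖ = r / 2 := by
    rw [hv, norm_smul, Real.norm_eq_abs, abs_of_pos (by positivity)]
    field_simp
  have hva : inner ℝ v a = r / 2 * ‖a‖ := by
    rw [hv, inner_smul_left, real_inner_self_eq_norm_sq]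
    simp only [conj_trivial]
    field_simp
  have hsub1 : ball x₁ (r / 2) ⊆ ball x₁ r := ball_subset_ball (by linarith)
  have hlow : M * (r / 2 * ‖a‖) * μ.real (ball x₁ (r / 2)) ≤ 2 * ∫ x in ball x₁ r, |D x| ∂μ := by
    have hsh : ∫ x in ball x₁ (r / 2), |D (x + v)| ∂μ ≤ ∫ x in ball x₁ r, |D x| ∂μ := by
      have e1 : ∫ x in ball x₁ (r / 2), |D (x + v)| ∂μ = ∫ x in ball (x₁ + v) (r / 2), |D x| ∂μ := by
        rw [← integral_indicator measurableSet_ball, ← integral_indicator measurableSet_ball,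
          ← integral_add_right_eq_self ((ball (x₁ + v) (r / 2)).indicator fun x => |D x|) v]
        congr 1
        ext x
        simp only [indicator]
        have : x + v ∈ ball (x₁ + v) (r / 2) ↔ x ∈ ball x₁ (r / 2) := by
          simp [mem_ball, dist_add_right]
        by_cases hx : x ∈ ball x₁ (r / 2)
        · rw [if_pos hx, if_pos (this.2 hx)]
        · rw [if_neg hx, if_neg (fun h' => hx (this.1 h'))]
      rw [e1]
      apply setIntegral_mono_set (hDi _ _).abs
      · exact Eventually.of_forall (fun x => abs_nonneg _)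
      · have hsb : ball (x₁ + v) (r / 2) ⊆ ball x₁ r := by
          apply ball_subset_ball'
          rw [dist_eq_norm, add_sub_cancel_left, hvn]
          linarith
        exact hsb.eventuallyLE
    have hDs : IntegrableOn (fun x => D (x + v)) (ball x₁ (r / 2)) μ := by
      have e2 := (hDi (x₁ + v) (r / 2))
      rw [← integrable_indicator_iff measurableSet_ball] at e2 ⊢
      have e3 := e2.comp_add_right v
      refine e3.congr (Eventually.of_forall ?_)
      intro x
      simp only [indicator]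
      have : x + v ∈ ball (x₁ + v) (r / 2) ↔ x ∈ ball x₁ (r / 2) := by
        simp [mem_ball, dist_add_right]
      by_cases hx : x ∈ ball x₁ (r / 2)
      · rw [if_pos hx, if_pos (this.2 hx)]
      · rw [if_neg hx, if_neg (fun h' => hx (this.1 h'))]
    have h1 : ∫ _ in ball x₁ (r / 2), (M * (r / 2 * ‖a‖)) ∂μ ≤
        ∫ x in ball x₁ (r / 2), (|D (x + v)| + |D x|) ∂μ := by
      apply setIntegral_mono_on (integrableOn_const (measure_ball_lt_top).ne)
        (hDs.abs.add (hDi _ _).abs) measurableSet_ball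
      intro x _
      have h := gap_sub g M y₁ x₁ y₂ x₂ x v
      rw [← ha, hva] at h
      have h' : D (x + v) - D x = M * (r / 2 * ‖a‖) := h
      rw [← h']
      exact (le_abs_self _).trans (abs_sub _ _)
    rw [setIntegral_const, smul_eq_mul, integral_add hDs.abs (hDi _ _).abs] at h1
    have h2 : ∫ x in ball x₁ (r / 2), |D x| ∂μ ≤ ∫ x in ball x₁ r, |D x| ∂μ := by
      apply setIntegral_mono_set (hDi _ _).abs
      · exact Eventually.of_forall (fun x => abs_nonneg _)
      · exact hsub1.eventuallyLE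
    rw [mul_comm] at h1
    linarith
  have hVhalf : V = 2 ^ m * μ.real (ball x₁ (r / 2)) := by
    rw [hV, ← real_ball_scale μ x₁ x₁ (by positivity : 0 ≤ r / 2) 2 (by norm_num)]
    congr 2; ring
  set W := μ.real (ball x₁ (r / 2)) with hW
  have hWpos : 0 < W := by
    rw [hW]
    exact ENNReal.toReal_pos (measure_ball_pos μ x₁ (by positivity)).ne' (measure_ball_lt_top).ne
  have hfin : M * (r / 2 * ‖a‖) * W ≤ 2 * (M / 2 * r ^ 2 * (2 ^ m * W) * (1 + 4 * 2 ^ m)) := by
    rw [← hVhalf]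
    linarith
  have hpos : 0 < M * (r / 2) * W := by positivity
  have : (M * (r / 2) * W) * ‖a‖ ≤ (M * (r / 2) * W) * (2 * 2 ^ m * (1 + 4 * 2 ^ m) * r) := by
    calc (M * (r / 2) * W) * ‖a‖ = M * (r / 2 * ‖a‖) * W := by ring
      _ ≤ 2 * (M / 2 * r ^ 2 * (2 ^ m * W) * (1 + 4 * 2 ^ m)) := hfin
      _ = _ := by ring
  exact le_of_mul_le_mul_left this hpos

end Pool.Agent.Q73.UT
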