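import Pool.Agent.Q73.UT.Psh

set_option autoImplicit false

open Set Filter Topology Metric MeasureTheory

namespace Pool.Agent.Q73.UT

variable {n : ℕ}

/-- If φ = -∞ on a set of positive measure in a ball, then φ = -∞ at the centre. -/
theorem bot_of_pos {Ω : Set (Cn n)} {φ : Cn n → EReal} (hφ : IsPSH Ω φ) {z : Cn n} {r : ℝ}
    (hr : 0 < r) (hsub : closedBall z r ⊆ Ω) (hpos : volume ({x | φ x = ⊥} ∩ ball z r) ≠ 0) :
    φ z = ⊥ := by
  by_contra hne
  obtain ⟨S, hS0, hS⟩ := exists_bound hφ hr.le hsub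
  have hnt : φ z ≠ ⊤ := hφ.1 z (hsub (mem_closedBall_self hr.le))
  have hcoe : φ z = ((φ z).toReal : EReal) := (EReal.coe_toReal hnt hne).symm
  set c := (φ z).toReal with hc
  set N := {x | φ x = ⊥} ∩ ball z r with hN
  have hfin : volume (ball z r) ≠ ⊤ := (measure_ball_lt_top).ne
  have hNfin : volume N ≠ ⊤ := ((measure_mono inter_subset_right).trans_lt measure_ball_lt_top).ne
  have hfm : IsFiniteMeasure ((volume : Measure (Cn n)).restrict (ball z r)) :=
    ⟨by rw [Measure.restrict_apply_univ]; exact measure_ball_lt_top⟩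
  have hcst : ∀ a : ℝ, Integrable (fun _ : Cn n => a) (volume.restrict (ball z r)) :=
    fun a => integrable_const a
  set η := volume.real N with hη
  have hηpos : 0 < η := ENNReal.toReal_pos hpos hNfin
  have hV : 0 < volume.real (ball z r) :=
    ENNReal.toReal_pos (measure_ball_pos volume z hr).ne' hfin
  set V := volume.real (ball z r)
  have key : ∀ k : ℝ, 0 ≤ k → c * V ≤ S * V - (S + k) * η := by
    intro k hk
    have hSub := tru_sub hφ hr.le hsub hS hk hS0
    have h1 := hSub.sub z r hr Subset.rfl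
    set g := tru φ z r k with hg
    have h2 : c ≤ g z := by
      rw [← EReal.coe_le_coe_iff, hg, coe_tru (mem_closedBall_self hr.le) hnt, ← hcoe]
      exact le_max_left _ _
    set B := {x | g x ≤ -k} with hB
    have hBm : MeasurableSet B := measurableSet_le hSub.meas measurable_const
    have h3 : ∫ x in ball z r, g x ≤ ∫ x in ball z r, (S - B.indicator (fun _ => S + k) x) := by
      apply setIntegral_mono_on (hSub.integrableOn z r) _ measurableSet_ball
      · intro x hx
        by_cases hxB : x ∈ B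
        · rw [indicator_of_mem hxB]
          have : g x ≤ -k := hxB
          linarith
        · rw [indicator_of_notMem hxB, sub_zero]
          exact tru_le (hS x) (by linarith)
      · exact (hcst S).sub ((hcst (S + k)).indicator hBm)
    have h4 : ∫ x in ball z r, (S - B.indicator (fun _ => S + k) x) =
        S * V - (S + k) * volume.real (B ∩ ball z r) := by
      rw [integral_sub (hcst S) ((hcst (S + k)).indicator hBm), setIntegral_const,
        integral_indicator hBm, Measure.restrict_restrict hBm, setIntegral_const]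
      simp only [smul_eq_mul]
      ring
    have h5 : η ≤ volume.real (B ∩ ball z r) := by
      apply ENNReal.toReal_mono
      · exact ((measure_mono inter_subset_right).trans_lt measure_ball_lt_top).ne
      · apply measure_mono
        rintro x ⟨hx1, hx2⟩
        refine ⟨?_, hx2⟩
        have hxc : x ∈ closedBall z r := ball_subset_closedBall hx2
        show g x ≤ -k
        rw [← EReal.coe_le_coe_iff, hg, coe_tru hxc (hφ.1 x (hsub hxc))]
        have : φ x = ⊥ := hx1
        rw [this]; simp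
    have h6 : (S + k) * η ≤ (S + k) * volume.real (B ∩ ball z r) := by
      apply mul_le_mul_of_nonneg_left h5; linarith
    have h7 : c * V ≤ g z * V := by gcongr
    linarith
  obtain ⟨k, hk⟩ := exists_nat_gt ((S * V - S * η - c * V) / η)
  have h1 := key k (Nat.cast_nonneg k)
  rw [div_lt_iff₀ hηpos] at hk
  nlinarith

/-- The polar set has measure zero. -/
theorem polar_null {Ω : Set (Cn n)} (hΩ : IsOpen Ω) (hconn : IsPreconnected Ω) {φ : Cn n → EReal}
    (hφ : IsPSH Ω φ) (hne : ∃ z ∈ Ω, φ z ≠ ⊥) : volume ({x | φ x = ⊥} ∩ Ω) = 0 := by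
  set N := {x | φ x = ⊥} with hN
  set T : Set (Cn n) := {z | ∀ ρ > 0, volume (N ∩ ball z ρ) ≠ 0} with hT
  have hball : ∀ z ∈ T, ∀ ρ > 0, closedBall z (3 * ρ) ⊆ Ω → ∀ z' ∈ ball z ρ, φ z' = ⊥ := by
    intro z hz ρ hρ hsub z' hz'
    have hd : dist z' z < ρ := hz'
    apply bot_of_pos hφ (by positivity : 0 < 2 * ρ)
    · refine Subset.trans (closedBall_subset_closedBall' ?_) hsub
      linarith
    · intro h0
      apply hz ρ hρ
      apply measure_mono_null _ h0
      apply inter_subset_inter_right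
      apply ball_subset_ball'
      rw [dist_comm]; linarith
  have hTopen : IsOpen (T ∩ Ω) := by
    rw [Metric.isOpen_iff]
    rintro z ⟨hz, hzΩ⟩
    obtain ⟨ε, hε, hεΩ⟩ := Metric.isOpen_iff.1 hΩ z hzΩ
    have hsub : closedBall z (3 * (ε / 4)) ⊆ Ω :=
      (closedBall_subset_ball (by linarith)).trans hεΩ
    have hb := hball z hz (ε / 4) (by positivity) hsub
    refine ⟨ε / 4, by positivity, ?_⟩
    intro z' hz'
    refine ⟨?_, hεΩ (ball_subset_ball (by linarith) hz')⟩
    intro ρ hρ h0
    have hd : dist z' z < ε / 4 := hz'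
    have hmin : 0 < min ρ (ε / 4 - dist z' z) := lt_min hρ (by linarith)
    have hsub2 : ball z' (min ρ (ε / 4 - dist z' z)) ⊆ N ∩ ball z' ρ := by
      intro x hx
      refine ⟨hb x ?_, ball_subset_ball (min_le_left _ _) hx⟩
      have hx1 : dist x z' < ε / 4 - dist z' z := lt_of_lt_of_le hx (min_le_right _ _)
      calc dist x z ≤ dist x z' + dist z' z := dist_triangle _ _ _
        _ < ε / 4 := by linarith
    exact (measure_ball_pos volume z' hmin).ne' (measure_mono_null hsub2 h0)
  by_cases hTne : (Ω ∩ (T ∩ Ω)).Nonempty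
  · exfalso
    have hcl : closure (T ∩ Ω) ∩ Ω ⊆ T ∩ Ω := by
      rintro b ⟨hb, hbΩ⟩
      refine ⟨?_, hbΩ⟩
      intro ρ hρ h0
      obtain ⟨v, ⟨hvT, -⟩, hvb⟩ := Metric.mem_closure_iff.1 hb (ρ / 2) (by positivity)
      apply hvT (ρ / 2) (by positivity)
      apply measure_mono_null _ h0
      apply inter_subset_inter_right
      apply ball_subset_ball'
      rw [dist_comm]; linarith
    have hsub := hconn.subset_of_closure_inter_subset hTopen hTne hcl
    obtain ⟨z, hz, hzne⟩ := hne
    obtain ⟨ε, hε, hεΩ⟩ := Metric.isOpen_iff.1 hΩ z hz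
    exact hzne (hball z (hsub hz).1 (ε / 4) (by positivity)
      ((closedBall_subset_ball (by linarith)).trans hεΩ) z (mem_ball_self (by positivity)))
  · apply measure_null_of_locally_null
    rintro z ⟨-, hz⟩
    have hzT : z ∉ T := fun h => hTne ⟨z, hz, h, hz⟩
    simp only [hT, mem_ofPred_eq, not_forall] at hzT
    obtain ⟨ρ, hρ, h0⟩ := hzT
    rw [not_not] at h0
    refine ⟨N ∩ Ω ∩ ball z ρ, inter_mem_nhdsWithin _ (ball_mem_nhds z hρ), ?_⟩
    exact measure_mono_null (inter_subset_inter_left _ inter_subset_left) h0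

/-- the dimensional density constant -/
noncomputable def cc (n : ℕ) : ENNReal :=
  ENNReal.ofReal (Lc (Module.finrank ℝ (Cn n))) ^ (Module.finrank ℝ (Cn n)) *
    (2 * ENNReal.ofReal (16 ^ (Module.finrank ℝ (Cn n))))

theorem density (hn : 1 ≤ n) {Ω : Set (Cn n)} (hΩ : IsOpen Ω) (hconn : IsPreconnected Ω)
    {φ : Cn n → EReal} (hφ : IsPSH Ω φ) (hne : ∃ z ∈ Ω, φ z ≠ ⊥) {z : Cn n} {R : ℝ} (hR : 0 < R)
    (hsub : closedBall z R ⊆ Ω) :
    ∃ A : Set (Cn n), MeasurableSet A ∧ A ⊆ closedBall z R ∧ Disjoint A (exceptional Ω φ) ∧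
      volume (closedBall z R) ≤ cc n * volume A := by
  have : Nonempty (Fin n) := ⟨⟨0, hn⟩⟩
  have : Nontrivial (Cn n) := inferInstance
  obtain ⟨S, hS0, hS⟩ := exists_bound hφ hR.le hsub
  set m := Module.finrank ℝ (Cn n) with hm
  have hnt : ∀ y, y ∈ closedBall z R → φ y ≠ ⊤ := fun y hy => hφ.1 y (hsub hy)
  set C := closedBall z (R / 16) with hC
  have hCR : C ⊆ closedBall z R := closedBall_subset_closedBall (by linarith)
  have hCpos : 0 < volume C := measure_closedBall_pos volume z (by positivity)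
  have hCfin : volume C < ⊤ := measure_closedBall_lt_top
  -- level sets
  set G : ℕ → Set (Cn n) := fun j => {y | y ∈ C ∧ ((-(j : ℝ) : ℝ) : EReal) ≤ φ y} with hG
  have hGmono : Monotone G := by
    intro i j hij y hy
    refine ⟨hy.1, le_trans ?_ hy.2⟩
    rw [EReal.coe_le_coe_iff]
    have : (i : ℝ) ≤ j := by exact_mod_cast hij
    linarith
  have hGun : C \ ({x | φ x = ⊥} ∩ Ω) ⊆ ⋃ j, G j := by
    rintro y ⟨hyC, hy⟩
    have hyb : φ y ≠ ⊥ := fun h => hy ⟨h, hsub (hCR hyC)⟩
    have hcoe : φ y = ((φ y).toReal : EReal) := (EReal.coe_toReal (hnt y (hCR hyC)) hyb).symm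
    obtain ⟨j, hj⟩ := exists_nat_ge (-(φ y).toReal)
    rw [mem_iUnion]
    refine ⟨j, hyC, ?_⟩
    rw [hcoe, EReal.coe_le_coe_iff]
    linarith
  have hmeas : volume C ≤ volume (⋃ j, G j) := by
    calc volume C ≤ volume (({x | φ x = ⊥} ∩ Ω) ∪ (⋃ j, G j)) := by
          apply measure_mono
          intro y hy
          by_cases h : y ∈ {x | φ x = ⊥} ∩ Ω
          · exact Or.inl h
          · exact Or.inr (hGun ⟨hy, h⟩)
      _ ≤ volume ({x | φ x = ⊥} ∩ Ω) + volume (⋃ j, G j) := measure_union_le _ _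
      _ = volume (⋃ j, G j) := by rw [polar_null hΩ hconn hφ hne, zero_add]
  have hlim : Tendsto (fun j => volume (G j)) atTop (𝓝 (volume (⋃ j, G j))) :=
    tendsto_measure_iUnion_atTop hGmono
  have hhalf : volume C / 2 < volume (⋃ j, G j) :=
    (ENNReal.half_lt_self hCpos.ne' hCfin.ne).trans_le hmeas
  obtain ⟨j, hj⟩ := (hlim.eventually (lt_mem_nhds hhalf)).exists
  -- truncation
  set k : ℝ := (j : ℝ) + 1 with hk
  have hk0 : 0 ≤ k := by positivity
  have hSub := tru_sub hφ hR.le hsub hS hk0 hS0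
  have husc := tru_usc hφ hsub k
  set g := tru φ z R k with hg
  set K := S + k with hK
  set M := (1024 * K + 1) / R ^ 2 with hM
  have hM0 : 0 < M := by positivity
  have hMR : 1024 * K ≤ M * R ^ 2 := by
    rw [hM, div_mul_cancel₀ _ (by positivity)]; linarith
  set F : Set (Cn n) := C ∩ {y | -(j : ℝ) ≤ g y} with hF
  have hFc : IsCompact F := by
    apply (isCompact_closedBall z (R / 16)).inter_right
    have := husc.isClosed_preimage (-(j : ℝ))
    exact this
  have hGF : G j ⊆ F := by
    rintro y ⟨hyC, hy⟩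
    refine ⟨hyC, ?_⟩
    show -(j : ℝ) ≤ g y
    rw [← EReal.coe_le_coe_iff, hg, coe_tru (hCR hyC) (hnt y (hCR hyC))]
    exact hy.trans (le_max_left _ _)
  have hFC : F ⊆ closedBall z (R / 16) := inter_subset_left
  refine ⟨CSet g z R M F, (isClosed_cset husc z R M hFc).measurableSet, ?_, ?_, ?_⟩
  · exact (cset_subset hSub.bdd hR hMR hM0 hFC).trans (closedBall_subset_closedBall (by linarith))
  · rw [Set.disjoint_left]
    rintro x hx ⟨-, hx2⟩
    apply hx2
    have hx8 : x ∈ closedBall z (R / 8) := cset_subset hSub.bdd hR hMR hM0 hFC hx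
    obtain ⟨y, ⟨hyC, hyg⟩, hyx⟩ := hx
    have hyR : y ∈ closedBall z R := hCR hyC
    have hval := ct_val hyx hyR
    have hgx : -k < g x := by
      have h1 : -(j : ℝ) ≤ g y := hyg
      have h2 : 0 ≤ M / 2 * ‖x - y‖ ^ 2 := by positivity
      linarith
    have hxR : x ∈ closedBall z R := hyx.1
    have hφx : φ x = ((g x : ℝ) : EReal) := by
      have h1 := coe_tru (k := k) hxR (hnt x hxR)
      rw [← hg] at h1
      rcases le_total (φ x) ((-k : ℝ) : EReal) with h | h
      · exfalso
        rw [max_eq_right h, EReal.coe_eq_coe_iff] at h1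
        linarith
      · rw [max_eq_left h] at h1
        exact h1.symm
    refine ⟨ball z R, fun x' => M / 2 * ‖x' - y‖ ^ 2, isOpen_ball,
      ball_subset_closedBall.trans hsub, ?_, ?_, ?_⟩
    · have : dist x z ≤ R / 8 := hx8
      rw [mem_ball]; linarith
    · apply ContDiff.contDiffOn
      exact contDiff_const.mul ((contDiff_id.sub contDiff_const).norm_sq ℝ)
    · intro x' hx'
      have hx'R : x' ∈ closedBall z R := ball_subset_closedBall hx'
      have h1 := hyx.2 x' hx'R
      have h2 : φ x' ≤ ((g x' : ℝ) : EReal) := by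
        rw [hg, coe_tru hx'R (hnt x' hx'R)]; exact le_max_left _ _
      rw [hφx, ← EReal.coe_sub]
      calc φ x' - ((M / 2 * ‖x' - y‖ ^ 2 : ℝ) : EReal)
          ≤ ((g x' : ℝ) : EReal) - ((M / 2 * ‖x' - y‖ ^ 2 : ℝ) : EReal) :=
            EReal.sub_le_sub h2 le_rfl
        _ = ((g x' - M / 2 * ‖x' - y‖ ^ 2 : ℝ) : EReal) := (EReal.coe_sub _ _).symm
        _ ≤ _ := EReal.coe_le_coe_iff.2 h1
  · have h1 : volume F ≤ ENNReal.ofReal (Lc m) ^ m * volume (CSet g z R M F) :=
      measure_contact hSub husc hR hMR hM0 hFC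
    have h2 : volume C ≤ 2 * volume F := by
      have : volume C / 2 ≤ volume F := hj.le.trans (measure_mono hGF)
      rw [ENNReal.div_le_iff (by norm_num) (by norm_num)] at this
      rw [mul_comm]; exact this
    have h3 : volume (closedBall z R) = ENNReal.ofReal (16 ^ m) * volume C := by
      rw [hC, Measure.addHaar_closedBall volume z hR.le,
        Measure.addHaar_closedBall volume z (by positivity : 0 ≤ R / 16), ← mul_assoc,
        ← ENNReal.ofReal_mul (by positivity), ← mul_pow]
      congr 3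
      ring
    calc volume (closedBall z R) = ENNReal.ofReal (16 ^ m) * volume C := h3
      _ ≤ ENNReal.ofReal (16 ^ m) * (2 * (ENNReal.ofReal (Lc m) ^ m *
            volume (CSet g z R M F))) := by gcongr; exact h2.trans (by gcongr)
      _ = cc n * volume (CSet g z R M F) := by unfold cc; rw [← hm]; ring

theorem main (hn : 1 ≤ n) {Ω : Set (Cn n)} (hΩ : IsOpen Ω) (hconn : IsPreconnected Ω)
    {φ : Cn n → EReal} (hφ : IsPSH Ω φ) (hne : ∃ z ∈ Ω, φ z ≠ ⊥) :
    volume (exceptional Ω φ) = 0 := by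
  by_contra hpos
  set X := exceptional Ω φ with hX
  have h1 := Besicovitch.ae_tendsto_measure_inter_div (volume : Measure (Cn n)) X
  have h2 : ∀ᵐ x ∂(volume.restrict X), x ∈ Ω := by
    rw [ae_iff]
    have e : {x | ¬ x ∈ Ω} = Ωᶜ := rfl
    rw [e, Measure.restrict_apply hΩ.measurableSet.compl]
    have : Ωᶜ ∩ X = ∅ := by
      ext x
      simp only [mem_inter_iff, mem_compl_iff, mem_empty_iff_false, iff_false, not_and]
      intro hx hxX
      exact hx hxX.1
    rw [this, measure_empty]
  have hne0 : (volume : Measure (Cn n)).restrict X ≠ 0 := by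
    rw [Ne, Measure.restrict_eq_zero]; exact hpos
  have hnb : NeBot (ae ((volume : Measure (Cn n)).restrict X)) := ae_neBot.2 hne0
  obtain ⟨x, hx1, hx2⟩ := (h1.and h2).exists
  obtain ⟨ε, hε, hεΩ⟩ := Metric.isOpen_iff.1 hΩ x hx2
  have hcc : cc n ≠ ⊤ := by
    unfold cc
    exact ENNReal.mul_ne_top (ENNReal.pow_ne_top ENNReal.ofReal_ne_top)
      (ENNReal.mul_ne_top (by norm_num) ENNReal.ofReal_ne_top)
  have hle : ∀ᶠ R in 𝓝[>] (0 : ℝ),
      volume (X ∩ closedBall x R) / volume (closedBall x R) + (cc n)⁻¹ ≤ 1 := by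
    have h3 : ∀ᶠ R in 𝓝[>] (0 : ℝ), R < ε := by
      filter_upwards [Ioo_mem_nhdsGT hε] with R hR using hR.2
    filter_upwards [h3, self_mem_nhdsWithin] with R hRε hR0
    have hR : 0 < R := hR0
    have hsub : closedBall x R ⊆ Ω := (closedBall_subset_ball hRε).trans hεΩ
    obtain ⟨A, hAm, hAsub, hAdis, hAvol⟩ := density hn hΩ hconn hφ hne hR hsub
    have hVpos : volume (closedBall x R) ≠ 0 := (measure_closedBall_pos volume x hR).ne'
    have hVfin : volume (closedBall x R) ≠ ⊤ := (measure_closedBall_lt_top).ne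
    have h4 : volume (X ∩ closedBall x R) + volume A ≤ volume (closedBall x R) := by
      rw [← measure_union (Disjoint.mono_left inter_subset_left hAdis.symm) hAm]
      exact measure_mono (union_subset inter_subset_right hAsub)
    have h5 : (cc n)⁻¹ ≤ volume A / volume (closedBall x R) := by
      rw [ENNReal.le_div_iff_mul_le (Or.inl hVpos) (Or.inl hVfin)]
      by_cases hc0 : cc n = 0
      · rw [hc0, zero_mul] at hAvol
        exact absurd (le_zero_iff.1 hAvol) hVpos
      · rw [mul_comm, ← div_eq_mul_inv, ENNReal.div_le_iff hc0 hcc, mul_comm]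
        exact hAvol
    calc volume (X ∩ closedBall x R) / volume (closedBall x R) + (cc n)⁻¹
        ≤ volume (X ∩ closedBall x R) / volume (closedBall x R) +
          volume A / volume (closedBall x R) := by gcongr
      _ = (volume (X ∩ closedBall x R) + volume A) / volume (closedBall x R) := by
          rw [ENNReal.add_div]
      _ ≤ volume (closedBall x R) / volume (closedBall x R) := by gcongr
      _ = 1 := ENNReal.div_self hVpos hVfin
  have hlim : Tendsto (fun R => volume (X ∩ closedBall x R) / volume (closedBall x R) +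
      (cc n)⁻¹) (𝓝[>] (0 : ℝ)) (𝓝 (1 + (cc n)⁻¹)) := hx1.add tendsto_const_nhds
  have h6 : 1 + (cc n)⁻¹ ≤ 1 := le_of_tendsto hlim hle
  have h7 : (cc n)⁻¹ ≠ 0 := ENNReal.inv_ne_zero.2 hcc
  have h8 : (1 : ENNReal) < 1 + (cc n)⁻¹ := ENNReal.lt_add_right (by norm_num) h7
  exact absurd h6 (not_le.2 h8)

end Pool.Agent.Q73.UT
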