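import Pool.Agent.Q73.UT.Contact

set_option autoImplicit false

open Set Filter Topology Metric MeasureTheory

namespace Pool.Agent.Q73.UT

variable {E : Type*} [NormedAddCommGroup E] [InnerProductSpace ℝ E] [FiniteDimensional ℝ E]

/-- the set of contact points of the paraboloids with vertices in F -/
def CSet (g : E → ℝ) (z₀ : E) (R M : ℝ) (F : Set E) : Set E := {x | ∃ y ∈ F, Ct g z₀ R M y x}

theorem exists_ct {g : E → ℝ} (hg : UpperSemicontinuous g) {z₀ : E} {R : ℝ} (hR : 0 < R) (M : ℝ)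
    (y : E) : ∃ x, Ct g z₀ R M y x := by
  have h1 : UpperSemicontinuousOn (fun x => g x + (-(M / 2 * ‖x - y‖ ^ 2))) (closedBall z₀ R) := by
    apply UpperSemicontinuousOn.add (hg.upperSemicontinuousOn _)
    have hc : Continuous (fun x : E => -(M / 2 * ‖x - y‖ ^ 2)) := by fun_prop
    exact hc.upperSemicontinuous.upperSemicontinuousOn _
  obtain ⟨x, hx, hmax⟩ := h1.exists_isMaxOn ⟨z₀, mem_closedBall_self hR.le⟩
    (isCompact_closedBall z₀ R)
  refine ⟨x, hx, fun x' hx' => ?_⟩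
  have := hmax hx'
  simp only [mem_ofPred_eq] at this
  linarith

theorem ct_val {g : E → ℝ} {z₀ : E} {R M : ℝ} {y x : E} (h : Ct g z₀ R M y x)
    (hy : y ∈ closedBall z₀ R) : g y + M / 2 * ‖x - y‖ ^ 2 ≤ g x := by
  have := h.2 y hy
  rw [sub_self, norm_zero] at this
  linarith

theorem ct_close {g : E → ℝ} {z₀ : E} {R M K : ℝ} (hb : ∀ x, |g x| ≤ K) {y x : E}
    (h : Ct g z₀ R M y x) (hy : y ∈ closedBall z₀ R) (hR : 0 < R) (hM : 1024 * K ≤ M * R ^ 2)
    (hM0 : 0 < M) : dist x y ≤ R / 16 := by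
  have h1 := ct_val h hy
  have h2 := abs_le.1 (hb x)
  have h3 := abs_le.1 (hb y)
  rw [dist_eq_norm]
  have h4 : M / 2 * ‖x - y‖ ^ 2 ≤ 2 * K := by linarith
  have h5 : M * ‖x - y‖ ^ 2 ≤ M * (R / 16) ^ 2 := by nlinarith
  have h6 : ‖x - y‖ ^ 2 ≤ (R / 16) ^ 2 := le_of_mul_le_mul_left h5 hM0
  exact le_of_sq_le_sq h6 (by positivity)

theorem isClosed_cset {g : E → ℝ} (hg : UpperSemicontinuous g) (z₀ : E) (R M : ℝ) {F : Set E}
    (hF : IsCompact F) : IsClosed (CSet g z₀ R M F) := by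
  rw [← isSeqClosed_iff_isClosed]
  intro x p hx hp
  choose y hyF hyC using hx
  obtain ⟨q, hqF, φ, hφ, hq⟩ := hF.tendsto_subseq hyF
  refine ⟨q, hqF, ?_, ?_⟩
  · exact isClosed_closedBall.mem_of_tendsto hp (Eventually.of_forall (fun n => (hyC n).1))
  · intro x' hx'
    have hxp : Tendsto (fun n => x (φ n)) atTop (𝓝 p) := hp.comp hφ.tendsto_atTop
    have h1 : Tendsto (fun n => M / 2 * ‖x (φ n) - y (φ n)‖ ^ 2) atTop (𝓝 (M / 2 * ‖p - q‖ ^ 2)) :=
      ((hxp.sub hq).norm.pow 2).const_mul _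
    have h2 : Tendsto (fun n => g x' - M / 2 * ‖x' - y (φ n)‖ ^ 2) atTop
        (𝓝 (g x' - M / 2 * ‖x' - q‖ ^ 2)) :=
      tendsto_const_nhds.sub (((tendsto_const_nhds.sub hq).norm.pow 2).const_mul _)
    apply le_of_forall_pos_le_add
    intro ε hε
    have h3 : ∀ᶠ n in atTop, g (x (φ n)) < g p + ε := hxp.eventually (hg p (g p + ε) (by linarith))
    have h4 : Tendsto (fun n => (g x' - M / 2 * ‖x' - y (φ n)‖ ^ 2) +
        M / 2 * ‖x (φ n) - y (φ n)‖ ^ 2) atTop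
        (𝓝 ((g x' - M / 2 * ‖x' - q‖ ^ 2) + M / 2 * ‖p - q‖ ^ 2)) := h2.add h1
    have h5 : (g x' - M / 2 * ‖x' - q‖ ^ 2) + M / 2 * ‖p - q‖ ^ 2 ≤ g p + ε := by
      apply le_of_tendsto h4
      filter_upwards [h3] with n hn
      have := (hyC (φ n)).2 x' hx'
      linarith
    linarith

variable [MeasurableSpace E] [BorelSpace E] {μ : Measure E} [μ.IsAddHaarMeasure]

/-- A Lipschitz map does not increase Haar measure by more than the power of the constant. -/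
theorem lip_image (μ : Measure E) [μ.IsAddHaarMeasure] {f : E → E} {A : Set E} {L : NNReal}
    (hf : LipschitzOnWith L f A) :
    μ (f '' A) ≤ (L : ENNReal) ^ (Module.finrank ℝ E) * μ A := by
  set H : Measure E := Measure.hausdorffMeasure (Module.finrank ℝ E : ℝ) with hH
  have h1 : H (f '' A) ≤ (L : ENNReal) ^ (Module.finrank ℝ E : ℝ) * H A :=
    hf.hausdorffMeasure_image_le (by positivity)
  have : H.IsAddHaarMeasure := isAddHaarMeasure_hausdorffMeasure
  have h2 := Measure.isAddLeftInvariant_eq_smul μ H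
  rw [h2]
  simp only [Measure.smul_apply]
  rw [ENNReal.rpow_natCast] at h1
  set c := μ.addHaarScalarFactor H
  rw [ENNReal.smul_def, smul_eq_mul, ENNReal.smul_def, smul_eq_mul, ← mul_assoc,
    mul_comm ((L : ENNReal) ^ _), mul_assoc]
  gcongr

/-- the dimensional constant -/
noncomputable def Lc (m : ℕ) : ℝ := 2 * 2 ^ m * (1 + 4 * 2 ^ m)

theorem Lc_pos (m : ℕ) : 0 < Lc m := by unfold Lc; positivity

theorem measure_contact [Nontrivial E] {g : E → ℝ} {z₀ : E} {R K M : ℝ} (hS : Sub μ g z₀ R K)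
    (hg : UpperSemicontinuous g) (hR : 0 < R) (hM : 1024 * K ≤ M * R ^ 2) (hM0 : 0 < M)
    {F : Set E} (hF : F ⊆ closedBall z₀ (R / 16)) :
    μ F ≤ ENNReal.ofReal (Lc (Module.finrank ℝ E)) ^ (Module.finrank ℝ E) *
      μ (CSet g z₀ R M F) := by
  classical
  set m := Module.finrank ℝ E
  have hFR : F ⊆ closedBall z₀ R := hF.trans (closedBall_subset_closedBall (by linarith))
  have hloc : ∀ y ∈ F, ∀ x, Ct g z₀ R M y x → dist x z₀ ≤ R / 8 := by
    intro y hy x hx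
    have h1 := ct_close hS.bdd hx (hFR hy) hR hM hM0
    have h2 : dist y z₀ ≤ R / 16 := hF hy
    calc dist x z₀ ≤ dist x y + dist y z₀ := dist_triangle _ _ _
      _ ≤ R / 8 := by linarith
  have hsub : ∀ x, dist x z₀ ≤ R / 8 → ∀ r, r ≤ R / 4 → closedBall x (2 * r) ⊆ closedBall z₀ R := by
    intro x hx r hr
    apply closedBall_subset_closedBall'
    linarith
  have hkey : ∀ y₁ ∈ F, ∀ y₂ ∈ F, ∀ x₁ x₂, Ct g z₀ R M y₁ x₁ → Ct g z₀ R M y₂ x₂ →
      dist y₂ y₁ ≤ Lc m * dist x₁ x₂ := by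
    intro y₁ hy₁ y₂ hy₂ x₁ x₂ h₁ h₂
    have d1 := hloc y₁ hy₁ x₁ h₁
    have d2 := hloc y₂ hy₂ x₂ h₂
    have d3 : dist x₁ x₂ ≤ R / 4 := by
      calc dist x₁ x₂ ≤ dist x₁ z₀ + dist z₀ x₂ := dist_triangle _ _ _
        _ ≤ R / 4 := by rw [dist_comm z₀ x₂]; linarith
    have hr : ∀ r, 0 < r → dist x₁ x₂ ≤ r → r ≤ R / 4 → dist y₂ y₁ ≤ Lc m * r := by
      intro r hr hd hr4
      rw [dist_eq_norm]
      refine vertex_dist hS hM0 h₁ h₂ hr hd ?_ (hsub x₂ d2 r hr4)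
      exact (closedBall_subset_closedBall (by linarith)).trans (hsub x₁ d1 r hr4)
    rcases (dist_nonneg : 0 ≤ dist x₁ x₂).eq_or_lt with h0 | hpos
    · rw [← h0, mul_zero]
      apply le_of_forall_pos_le_add
      intro ε hε
      rw [zero_add]
      have hL := Lc_pos m
      have := hr (min (R / 4) (ε / Lc m)) (by positivity) (by rw [← h0]; positivity)
        (min_le_left _ _)
      refine this.trans ?_
      calc Lc m * min (R / 4) (ε / Lc m) ≤ Lc m * (ε / Lc m) := by gcongr; exact min_le_right _ _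
        _ = ε := by field_simp
    · exact hr _ hpos le_rfl d3
  -- the vertex map
  set Y : E → E := fun x => if h : ∃ y ∈ F, Ct g z₀ R M y x then h.choose else 0 with hY
  have hYs : ∀ x ∈ CSet g z₀ R M F, Y x ∈ F ∧ Ct g z₀ R M (Y x) x := by
    intro x hx
    have hx' : ∃ y ∈ F, Ct g z₀ R M y x := hx
    simp only [hY, dif_pos hx']
    exact hx'.choose_spec
  have hLip : LipschitzOnWith (Lc m).toNNReal Y (CSet g z₀ R M F) := by
    apply LipschitzOnWith.of_dist_le_mul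
    intro x₁ hx₁ x₂ hx₂
    obtain ⟨a1, b1⟩ := hYs x₁ hx₁
    obtain ⟨a2, b2⟩ := hYs x₂ hx₂
    have := hkey _ a1 _ a2 _ _ b1 b2
    rw [dist_comm, Real.coe_toNNReal _ (Lc_pos m).le]
    exact this
  have himg : F ⊆ Y '' (CSet g z₀ R M F) := by
    intro y hy
    obtain ⟨x, hx⟩ := exists_ct hg (z₀ := z₀) hR M y
    have hxC : x ∈ CSet g z₀ R M F := ⟨y, hy, hx⟩
    refine ⟨x, hxC, ?_⟩
    obtain ⟨a1, b1⟩ := hYs x hxC
    have := hkey _ hy _ a1 _ _ hx b1
    rw [dist_self, mul_zero] at this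
    exact dist_le_zero.1 this
  calc μ F ≤ μ (Y '' (CSet g z₀ R M F)) := measure_mono himg
    _ ≤ ((Lc m).toNNReal : ENNReal) ^ m * μ (CSet g z₀ R M F) := lip_image μ hLip
    _ = _ := rfl

theorem cset_subset {g : E → ℝ} {z₀ : E} {R K M : ℝ} (hb : ∀ x, |g x| ≤ K)
    (hR : 0 < R) (hM : 1024 * K ≤ M * R ^ 2) (hM0 : 0 < M)
    {F : Set E} (hF : F ⊆ closedBall z₀ (R / 16)) : CSet g z₀ R M F ⊆ closedBall z₀ (R / 8) := by
  rintro x ⟨y, hy, hx⟩
  have h1 := ct_close hb hx (closedBall_subset_closedBall (by linarith) (hF hy)) hR hM hM0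
  have h2 : dist y z₀ ≤ R / 16 := hF hy
  rw [mem_closedBall]
  calc dist x z₀ ≤ dist x y + dist y z₀ := dist_triangle _ _ _
    _ ≤ R / 8 := by linarith

end Pool.Agent.Q73.UT
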