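import Pool.Agent.Q73.UT.Defs
import Pool.Agent.Q73.UT.Meas

set_option autoImplicit false

open Set Filter Topology Metric MeasureTheory

namespace Pool.Agent.Q73.UT

variable {n : ℕ}

/-- truncation of φ at level -k on a closed ball, extended by -k -/
noncomputable def tru (φ : Cn n → EReal) (z₀ : Cn n) (R k : ℝ) (x : Cn n) : ℝ := by
  classical
  exact if x ∈ closedBall z₀ R then (max (φ x) ((-k : ℝ) : EReal)).toReal else -k

theorem tru_in {φ : Cn n → EReal} {z₀ : Cn n} {R k : ℝ} {x : Cn n} (hx : x ∈ closedBall z₀ R) :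
    tru φ z₀ R k x = (max (φ x) ((-k : ℝ) : EReal)).toReal := by
  unfold tru; rw [if_pos hx]

theorem tru_out {φ : Cn n → EReal} {z₀ : Cn n} {R k : ℝ} {x : Cn n} (hx : x ∉ closedBall z₀ R) :
    tru φ z₀ R k x = -k := by
  unfold tru; rw [if_neg hx]

theorem coe_tru {φ : Cn n → EReal} {z₀ : Cn n} {R k : ℝ} {x : Cn n} (hx : x ∈ closedBall z₀ R)
    (hφ : φ x ≠ ⊤) : ((tru φ z₀ R k x : ℝ) : EReal) = max (φ x) ((-k : ℝ) : EReal) := by
  rw [tru_in hx]
  apply EReal.coe_toReal
  · rw [Ne, max_eq_top]; simp [hφ]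
  · rw [Ne, max_eq_bot]; simp

theorem neg_le_tru {φ : Cn n → EReal} {z₀ : Cn n} {R k : ℝ} {x : Cn n}
    (hφ : x ∈ closedBall z₀ R → φ x ≠ ⊤) : -k ≤ tru φ z₀ R k x := by
  by_cases hx : x ∈ closedBall z₀ R
  · rw [← EReal.coe_le_coe_iff, coe_tru hx (hφ hx)]
    exact le_max_right _ _
  · rw [tru_out hx]

theorem tru_le {φ : Cn n → EReal} {z₀ : Cn n} {R k S : ℝ} {x : Cn n}
    (hφ : x ∈ closedBall z₀ R → φ x ≤ (S : EReal)) (hk : -k ≤ S) : tru φ z₀ R k x ≤ S := by
  by_cases hx : x ∈ closedBall z₀ R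
  · rw [← EReal.coe_le_coe_iff, coe_tru hx (ne_top_of_le_ne_top (EReal.coe_ne_top S) (hφ hx))]
    exact max_le (hφ hx) (EReal.coe_le_coe_iff.2 hk)
  · rw [tru_out hx]; exact hk

theorem exists_bound {Ω : Set (Cn n)} {φ : Cn n → EReal} (hφ : IsPSH Ω φ) {z₀ : Cn n} {R : ℝ}
    (hR : 0 ≤ R) (hsub : closedBall z₀ R ⊆ Ω) :
    ∃ S : ℝ, 0 ≤ S ∧ ∀ x ∈ closedBall z₀ R, φ x ≤ (S : EReal) := by
  obtain ⟨x, hx, hmax⟩ := (hφ.2.1.mono hsub).exists_isMaxOn ⟨z₀, mem_closedBall_self hR⟩
    (isCompact_closedBall z₀ R)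
  refine ⟨max 0 (φ x).toReal, le_max_left _ _, fun y hy => ?_⟩
  have h1 : φ y ≤ φ x := hmax hy
  refine h1.trans ((EReal.le_coe_toReal (hφ.1 x (hsub hx))).trans ?_)
  exact EReal.coe_le_coe_iff.2 (le_max_right _ _)

theorem tru_usc {Ω : Set (Cn n)} {φ : Cn n → EReal} (hφ : IsPSH Ω φ) {z₀ : Cn n} {R : ℝ}
    (hsub : closedBall z₀ R ⊆ Ω) (k : ℝ) : UpperSemicontinuous (tru φ z₀ R k) := by
  intro x c hc
  have hnt : ∀ y, y ∈ closedBall z₀ R → φ y ≠ ⊤ := fun y hy => hφ.1 y (hsub hy)
  have hkc : -k < c := (neg_le_tru (hnt x)).trans_lt hc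
  by_cases hx : x ∈ closedBall z₀ R
  · have h1 : φ x < (c : EReal) := by
      rw [← EReal.coe_lt_coe_iff, coe_tru hx (hnt x hx)] at hc
      exact (le_max_left _ _).trans_lt hc
    have h2 := hφ.2.1.mono hsub x hx _ h1
    rw [eventually_nhdsWithin_iff] at h2
    filter_upwards [h2] with y hy
    by_cases hyR : y ∈ closedBall z₀ R
    · rw [← EReal.coe_lt_coe_iff, coe_tru hyR (hnt y hyR)]
      exact max_lt (hy hyR) (EReal.coe_lt_coe_iff.2 hkc)
    · rw [tru_out hyR]; exact hkc
  · have : (closedBall z₀ R)ᶜ ∈ 𝓝 x := isClosed_closedBall.isOpen_compl.mem_nhds hx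
    filter_upwards [this] with y hy
    rw [tru_out hy]; exact hkc

/-! ### Lipschitz majorants -/

/-- Lipschitz approximation from above -/
noncomputable def lip (g : Cn n → ℝ) (z₀ : Cn n) (R : ℝ) (j : ℕ) (x : Cn n) : ℝ :=
  ⨆ s : closedBall z₀ R, (g s - j * dist x s)

section
variable {g : Cn n → ℝ} {z₀ : Cn n} {R K : ℝ}

theorem lip_bdd (hb : ∀ x, |g x| ≤ K) (j : ℕ) (x : Cn n) :
    BddAbove (range (fun s : closedBall z₀ R => g s - j * dist x s)) := by
  refine ⟨K, ?_⟩
  rintro _ ⟨s, rfl⟩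
  have h1 := (abs_le.1 (hb s)).2
  have h2 : 0 ≤ (j : ℝ) * dist x s := by positivity
  simp only
  linarith

theorem le_lip (hb : ∀ x, |g x| ≤ K) (j : ℕ) {x : Cn n} (hx : x ∈ closedBall z₀ R) :
    g x ≤ lip g z₀ R j x := by
  have := le_ciSup (lip_bdd (z₀ := z₀) (R := R) hb j x) ⟨x, hx⟩
  simp only [dist_self, mul_zero, sub_zero] at this
  exact this

theorem lip_le (hR : 0 ≤ R) (hb : ∀ x, |g x| ≤ K) (j : ℕ) (x : Cn n) : lip g z₀ R j x ≤ K := by
  have : Nonempty (closedBall z₀ R) := ⟨⟨z₀, mem_closedBall_self hR⟩⟩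
  apply ciSup_le
  intro s
  have h1 := (abs_le.1 (hb s)).2
  have h2 : 0 ≤ (j : ℝ) * dist x s := by positivity
  linarith

theorem lip_lip (hR : 0 ≤ R) (hb : ∀ x, |g x| ≤ K) (j : ℕ) :
    LipschitzWith (j : NNReal) (lip g z₀ R j) := by
  have : Nonempty (closedBall z₀ R) := ⟨⟨z₀, mem_closedBall_self hR⟩⟩
  apply LipschitzWith.of_le_add_mul
  intro x y
  apply ciSup_le
  intro s
  have h1 : g s - j * dist y s ≤ lip g z₀ R j y :=
    le_ciSup (lip_bdd (z₀ := z₀) (R := R) hb j y) s
  have h2 : dist y s ≤ dist x y + dist x s := by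
    rw [dist_comm x y]; exact dist_triangle _ _ _
  have h3 : (j : ℝ) * dist y s ≤ j * (dist x y + dist x s) := by gcongr
  have h4 : ((j : NNReal) : ℝ) = (j : ℝ) := by simp
  rw [h4]
  nlinarith

theorem lip_tendsto (hR : 0 ≤ R) (hb : ∀ x, |g x| ≤ K) (hg : UpperSemicontinuous g) {x : Cn n}
    (hx : x ∈ closedBall z₀ R) : Tendsto (fun j => lip g z₀ R j x) atTop (𝓝 (g x)) := by
  have : Nonempty (closedBall z₀ R) := ⟨⟨z₀, mem_closedBall_self hR⟩⟩
  rw [Metric.tendsto_atTop]
  intro ε hε
  have h1 := hg x (g x + ε / 2) (by linarith)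
  obtain ⟨δ, hδ, h2⟩ := Metric.eventually_nhds_iff.1 h1
  obtain ⟨N, hN⟩ := exists_nat_ge (2 * K / δ)
  refine ⟨N, fun j hj => ?_⟩
  have hle : lip g z₀ R j x ≤ g x + ε / 2 := by
    apply ciSup_le
    intro s
    rcases lt_or_ge (dist (s : Cn n) x) δ with h | h
    · have h3 := h2 h
      have h4 : 0 ≤ (j : ℝ) * dist x s := by positivity
      linarith
    · have h3 : 2 * K ≤ j * δ := by
        rw [div_le_iff₀ hδ] at hN
        calc 2 * K ≤ N * δ := hN
          _ ≤ j * δ := by gcongr
      have h4 : (j : ℝ) * δ ≤ j * dist x s := by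
        rw [dist_comm x]; gcongr
      have h5 := (abs_le.1 (hb s)).2
      have h6 := (abs_le.1 (hb x)).1
      linarith
  have hge := le_lip hb j hx
  rw [Real.dist_eq, abs_of_nonneg (by linarith)]
  linarith

end

/-! ### The sub-mean value property on balls -/

/-- multiplication by a unit complex number as a real linear isometry -/
noncomputable def rot (θ : ℝ) : Cn n ≃ₗᵢ[ℝ] Cn n :=
  LinearIsometryEquiv.mk
    { toFun := fun w => Complex.exp ((θ : ℂ) * Complex.I) • w
      invFun := fun w => Complex.exp (-((θ : ℂ) * Complex.I)) • w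
      map_add' := by intro x y; simp
      map_smul' := by intro m x; exact smul_comm _ _ _
      left_inv := by
        intro x
        show Complex.exp (-((θ : ℂ) * Complex.I)) • (Complex.exp ((θ : ℂ) * Complex.I) • x) = x
        rw [smul_smul, ← Complex.exp_add, neg_add_cancel, Complex.exp_zero, one_smul]
      right_inv := by
        intro x
        show Complex.exp ((θ : ℂ) * Complex.I) • (Complex.exp (-((θ : ℂ) * Complex.I)) • x) = x
        rw [smul_smul, ← Complex.exp_add, add_neg_cancel, Complex.exp_zero, one_smul] }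
    (by intro x; show ‖Complex.exp ((θ : ℂ) * Complex.I) • x‖ = ‖x‖
        rw [norm_smul, Complex.norm_exp_ofReal_mul_I, one_mul])

theorem rot_apply (θ : ℝ) (w : Cn n) : rot θ w = Complex.exp ((θ : ℂ) * Complex.I) • w := rfl

theorem circ_eq (z w : Cn n) (θ : ℝ) : circ z w θ = z + rot θ w := rfl

theorem int_rot (h : Cn n → ℝ) (z : Cn n) (r θ : ℝ) :
    ∫ w in ball (0 : Cn n) r, h (circ z w θ) = ∫ x in ball z r, h x := by
  have e1 : ∫ x in ball z r, h x = ∫ w, (ball z r).indicator h (z + rot θ w) := by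
    rw [← integral_indicator measurableSet_ball, ← integral_add_left_eq_self _ z,
      ← (rot (n := n) θ).measurePreserving.integral_comp
      (rot (n := n) θ).toHomeomorph.measurableEmbedding]
  rw [e1, ← integral_indicator measurableSet_ball]
  congr 1
  ext w
  simp only [indicator, circ_eq]
  have : z + rot θ w ∈ ball z r ↔ w ∈ ball (0 : Cn n) r := by
    simp [mem_ball, dist_eq_norm]
  by_cases hw : w ∈ ball (0 : Cn n) r
  · rw [if_pos hw, if_pos (this.2 hw)]
  · rw [if_neg hw, if_neg (fun h' => hw (this.1 h'))]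

theorem circ_cont (z : Cn n) : Continuous (fun p : Cn n × ℝ => circ z p.1 p.2) := by
  unfold circ; fun_prop

theorem mean_cont (h : Cn n → ℝ) (hc : Continuous h) {K : ℝ} (hK : ∀ x, |h x| ≤ K) (z : Cn n)
    (r : ℝ) : ∫ w in ball (0 : Cn n) r, ((2 * Real.pi)⁻¹ * ∫ θ in (0 : ℝ)..(2 * Real.pi),
      h (circ z w θ)) = ∫ x in ball z r, h x := by
  have hpi : 0 < 2 * Real.pi := by positivity
  rw [integral_const_mul]
  simp_rw [intervalIntegral.integral_of_le hpi.le]
  rw [integral_integral_swap]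
  · simp_rw [int_rot]
    rw [setIntegral_const]
    simp only [smul_eq_mul]
    have : (volume : Measure ℝ).real (Ioc 0 (2 * Real.pi)) = 2 * Real.pi := by
      simp [Measure.real, Real.pi_pos.le]
    rw [this]
    field_simp
  · have : IsFiniteMeasure ((volume : Measure (Cn n)).restrict (ball 0 r)) :=
      ⟨by rw [Measure.restrict_apply_univ]; exact measure_ball_lt_top⟩
    apply Integrable.of_bound (C := K)
    · exact (hc.comp (circ_cont z)).aestronglyMeasurable
    · exact Eventually.of_forall (fun p => by rw [Real.norm_eq_abs]; exact hK _)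

theorem tru_sub {Ω : Set (Cn n)} {φ : Cn n → EReal} (hφ : IsPSH Ω φ) {z₀ : Cn n} {R : ℝ}
    (hR : 0 ≤ R) (hsub : closedBall z₀ R ⊆ Ω) {S : ℝ} (hS : ∀ x ∈ closedBall z₀ R, φ x ≤ (S : EReal))
    {k : ℝ} (hk : 0 ≤ k) (hS0 : 0 ≤ S) :
    Sub volume (tru φ z₀ R k) z₀ R (S + k) := by
  have hnt : ∀ y, y ∈ closedBall z₀ R → φ y ≠ ⊤ := fun y hy => hφ.1 y (hsub hy)
  have husc := tru_usc hφ hsub k
  have hb : ∀ x, |tru φ z₀ R k x| ≤ S + k := by
    intro x
    rw [abs_le]
    have h1 := neg_le_tru (k := k) (hnt x)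
    have h2 := tru_le (k := k) (hS x) (by linarith)
    constructor <;> linarith
  refine ⟨husc.measurable, hb, ?_⟩
  intro z r hr hzr
  set g := tru φ z₀ R k with hg
  have hpi : 0 < 2 * Real.pi := by positivity
  -- inequality with the Lipschitz majorants
  have hj : ∀ j : ℕ, g z * volume.real (ball z r) ≤ ∫ x in ball z r, lip g z₀ R j x := by
    intro j
    set h := lip g z₀ R j with hh
    have hc : Continuous h := (lip_lip hR hb j).continuous
    -- a globally bounded version
    set h' : Cn n → ℝ := fun x => max (h x) (-(S + k)) with hh'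
    have hc' : Continuous h' := hc.max continuous_const
    have hb' : ∀ x, |h' x| ≤ S + k := by
      intro x
      rw [abs_le]
      exact ⟨le_max_right _ _, max_le (lip_le hR hb j x) (by linarith)⟩
    have heq : ∀ x ∈ closedBall z₀ R, h' x = h x := by
      intro x hx
      apply max_eq_left
      exact (abs_le.1 (hb x)).1.trans (le_lip hb j hx)
    have hpt : ∀ w ∈ ball (0 : Cn n) r, g z ≤ (2 * Real.pi)⁻¹ * ∫ θ in (0 : ℝ)..(2 * Real.pi),
        h' (circ z w θ) := by
      intro w hw
      have hwr : ‖w‖ < r := by simpa using hw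
      have hdisc : ∀ ζ : ℂ, ‖ζ‖ ≤ 1 → z + ζ • w ∈ closedBall z₀ R := by
        intro ζ hζ
        apply hzr
        rw [mem_closedBall, dist_eq_norm, add_sub_cancel_left, norm_smul]
        calc ‖ζ‖ * ‖w‖ ≤ 1 * ‖w‖ := by gcongr
          _ ≤ r := by linarith
      have hcirc : ∀ θ : ℝ, circ z w θ ∈ closedBall z₀ R := by
        intro θ
        apply hdisc
        rw [Complex.norm_exp_ofReal_mul_I]
      have hzz : z ∈ closedBall z₀ R := hzr (mem_closedBall_self hr.le)
      have hcc : Continuous (fun θ : ℝ => h' (circ z w θ)) :=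
        hc'.comp ((circ_cont z).comp (Continuous.prodMk continuous_const continuous_id))
      have hge : ∀ θ, g (circ z w θ) ≤ h' (circ z w θ) := by
        intro θ
        rw [heq _ (hcirc θ)]
        exact le_lip hb j (hcirc θ)
      have h1 := hφ.2.2 z w (fun ζ hζ => hsub (hdisc ζ hζ)) _ hcc (by
        intro θ _
        refine le_trans ?_ (EReal.coe_le_coe_iff.2 (hge θ))
        rw [hg, coe_tru (hcirc θ) (hnt _ (hcirc θ))]
        exact le_max_left _ _)
      rw [← EReal.coe_le_coe_iff, hg, coe_tru hzz (hnt _ hzz)]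
      apply max_le h1
      rw [EReal.coe_le_coe_iff, le_inv_mul_iff₀ hpi]
      have h2 : ∫ θ in (0 : ℝ)..(2 * Real.pi), (-k) ≤ ∫ θ in (0 : ℝ)..(2 * Real.pi),
          h' (circ z w θ) := by
        apply intervalIntegral.integral_mono_on hpi.le (by simp) (hcc.intervalIntegrable _ _)
        intro θ _
        exact (neg_le_tru (hnt _)).trans (hge θ)
      rw [intervalIntegral.integral_const, smul_eq_mul, sub_zero] at h2
      exact h2
    have h3 : ∫ w in ball (0 : Cn n) r, g z ≤ ∫ w in ball (0 : Cn n) r,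
        ((2 * Real.pi)⁻¹ * ∫ θ in (0 : ℝ)..(2 * Real.pi), h' (circ z w θ)) := by
      apply setIntegral_mono_on (integrableOn_const (measure_ball_lt_top).ne) _ measurableSet_ball
        hpt
      have : IsFiniteMeasure ((volume : Measure (Cn n)).restrict (ball 0 r)) :=
        ⟨by rw [Measure.restrict_apply_univ]; exact measure_ball_lt_top⟩
      apply Integrable.of_bound (C := S + k)
      · apply Continuous.aestronglyMeasurable
        apply Continuous.mul continuous_const
        exact intervalIntegral.continuous_parametric_intervalIntegral_of_continuous'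
          (f := fun (w : Cn n) (θ : ℝ) => h' (circ z w θ)) (hc'.comp (circ_cont z)) _ _
      · apply Eventually.of_forall
        intro w
        rw [norm_mul, Real.norm_eq_abs, abs_of_pos (inv_pos.2 hpi), inv_mul_le_iff₀ hpi]
        have := intervalIntegral.norm_integral_le_of_norm_le_const (a := (0 : ℝ))
          (b := 2 * Real.pi) (f := fun θ => h' (circ z w θ)) (C := S + k)
          (fun θ _ => by rw [Real.norm_eq_abs]; exact hb' _)
        rw [sub_zero, abs_of_pos hpi] at this
        linarith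
    rw [mean_cont h' hc' hb' z r, setIntegral_const, smul_eq_mul] at h3
    have h4 : volume.real (ball (0 : Cn n) r) = volume.real (ball z r) := by
      unfold Measure.real
      rw [Measure.addHaar_ball_center volume z r]
    rw [h4, mul_comm] at h3
    refine h3.trans (le_of_eq ?_)
    apply setIntegral_congr_fun measurableSet_ball
    intro x hx
    exact heq x (hzr (ball_subset_closedBall hx))
  -- limit
  have hlim : Tendsto (fun j => ∫ x in ball z r, lip g z₀ R j x) atTop
      (𝓝 (∫ x in ball z r, g x)) := by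
    apply tendsto_integral_of_dominated_convergence (fun _ => S + k)
    · intro j
      exact (lip_lip hR hb j).continuous.aestronglyMeasurable
    · exact integrableOn_const (measure_ball_lt_top).ne
    · intro j
      filter_upwards [ae_restrict_mem measurableSet_ball] with x hx
      have hxR : x ∈ closedBall z₀ R := hzr (ball_subset_closedBall hx)
      rw [Real.norm_eq_abs, abs_le]
      exact ⟨(abs_le.1 (hb x)).1.trans (le_lip hb j hxR), lip_le hR hb j x⟩
    · filter_upwards [ae_restrict_mem measurableSet_ball] with x hx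
      exact lip_tendsto hR hb husc (hzr (ball_subset_closedBall hx))
  exact ge_of_tendsto' hlim hj

end Pool.Agent.Q73.UT
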